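import Mathlib

/-!
# FLG-ZP-Sep: holomorphic families of matrices with separable characteristic polynomial
-/

set_option autoImplicit false

open scoped BigOperators Topology
open Filter

namespace Pool.Agent.FLG

variable {κ : Type} [Fintype κ] [DecidableEq κ]

/-- the resultant of the universal characteristic polynomial and its derivative -/
private noncomputable def ures (κ : Type) [Fintype κ] [DecidableEq κ] : MvPolynomial (κ × κ) ℂ :=
  Polynomial.resultant (Matrix.charpoly.univ ℂ κ)
    (Polynomial.derivative (Matrix.charpoly.univ ℂ κ)) (Fintype.card κ) (Fintype.card κ)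

private theorem ures_ne (A : Matrix κ κ ℂ) :
    MvPolynomial.eval (fun p : κ × κ => A p.1 p.2) (ures κ) ≠ 0 ↔ A.charpoly.Separable := by
  have h1 : (Matrix.charpoly.univ ℂ κ).map (MvPolynomial.eval fun p : κ × κ => A p.1 p.2) =
      A.charpoly := by
    have := Matrix.charpoly.univ_map_eval₂Hom κ (RingHom.id ℂ) (fun p : κ × κ => A p.1 p.2)
    exact this
  have h2 : MvPolynomial.eval (fun p : κ × κ => A p.1 p.2) (ures κ) =
      Polynomial.resultant A.charpoly (Polynomial.derivative A.charpoly)
        (Fintype.card κ) (Fintype.card κ) := by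
    unfold ures
    rw [← Polynomial.resultant_map_map, ← Polynomial.derivative_map, h1]
  have hm := A.charpoly_monic
  have hd : A.charpoly.natDegree = Fintype.card κ := A.charpoly_natDegree_eq_dim
  have hle : (Polynomial.derivative A.charpoly).natDegree ≤ Fintype.card κ := by
    refine (Polynomial.natDegree_derivative_le _).trans ?_
    rw [hd]
    exact Nat.sub_le _ _
  obtain ⟨k, hk⟩ := Nat.exists_eq_add_of_le hle
  have h3 : Polynomial.resultant A.charpoly (Polynomial.derivative A.charpoly)
      (Fintype.card κ) (Fintype.card κ) =
      Polynomial.resultant A.charpoly (Polynomial.derivative A.charpoly) := by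
    have h4 := Polynomial.resultant_add_right_deg A.charpoly (Polynomial.derivative A.charpoly)
      (Fintype.card κ) (Polynomial.derivative A.charpoly).natDegree k le_rfl
    rw [← hk, ← hd, Polynomial.coeff_natDegree, hm.leadingCoeff, one_pow, one_mul] at h4
    rw [← hd]
    exact h4
  rw [h2, h3, ← isUnit_iff_ne_zero, Polynomial.isUnit_resultant_iff_isCoprime hm]
  rfl

/-- If the characteristic polynomial of a member of an entire family of matrices is separable, then
this holds for the members near `0`, except perhaps `0`. -/
theorem sep_near {A : ℂ → Matrix κ κ ℂ} (hA : ∀ i j, Differentiable ℂ fun z => A z i j)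
    {z₁ : ℂ} (h1 : (A z₁).charpoly.Separable) :
    ∀ᶠ z in 𝓝[≠] (0 : ℂ), (A z).charpoly.Separable := by
  have hd : ∀ q : MvPolynomial (κ × κ) ℂ,
      Differentiable ℂ fun z => MvPolynomial.eval (fun p : κ × κ => A z p.1 p.2) q := by
    intro q
    induction q using MvPolynomial.induction_on with
    | C a => simp only [MvPolynomial.eval_C]; fun_prop
    | add p q hp hq =>
      simp only [map_add]
      exact hp.add hq
    | mul_X p i hp =>
      simp only [map_mul, MvPolynomial.eval_X]
      exact hp.mul (hA _ _)
  have ha : AnalyticOnNhd ℂ (fun z => MvPolynomial.eval (fun p : κ × κ => A z p.1 p.2) (ures κ))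
      Set.univ := fun z _ => (hd _).analyticAt z
  rcases (ha 0 (Set.mem_univ 0)).eventually_eq_zero_or_eventually_ne_zero with h | h
  · exfalso
    have h3 := ha.eqOn_zero_of_preconnected_of_eventuallyEq_zero isPreconnected_univ
      (Set.mem_univ 0) h (Set.mem_univ z₁)
    exact (ures_ne (A z₁)).2 h1 h3
  · exact h.mono fun z hz => (ures_ne (A z)).1 hz

end Pool.Agent.FLG
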