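import Pool.Agent.FLG.Z.Main
import Pool.Agent.FLG.PK.Ev
import Pool.Agent.FLG.PK.Gam
import Pool.Agent.FLG.PK.Det
import Pool.Agent.FLG.P.FMain

/-!
# FLG-ZP-Main: the numerical conjecture of Dubrovin for flag varieties `G/Q`, in coordinates
-/

set_option autoImplicit false

open scoped BigOperators Topology
open Filter
open Pool.Agent.DST.TE Pool.Agent.DSTJ.Spec Pool.Agent.FLG.Mo

namespace Pool.Agent.FLG.Par

open RS

variable {r : ℕ} {P : Par r} {N : ℕ}

/-- the `K`-theory of `G/Q` -/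
noncomputable def kd {t : Fin r → ℂ} (ht : P.Inv t) : P.KD t where
  B := fun i p => P.Bk i p.1
  G := P.GM t
  χ := P.chiM
  G_diff := fun hy u i => GM_diff t hy u i
  G_res := fun hy => GM_res ht hy
  B_supp := fun i p h => (isB_Bk i).isB.supp _ h
  B_diag := fun p => (isB_Bk p).isB.diag
  χ_unit := chiM_unit P
  χ_loc := fun i j y hy => isChi_chiM i j y hy

variable (n : P.Num N)

/-- the combinations with matrix `U` -/
noncomputable def vU (U : Matrix (Fin N) (Fin N) ℤ) (j : Fin N) : P.D.KB :=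
  ∑ i, U i j • bB (n.e i)

theorem invK_vU (U : Matrix (Fin N) (Fin N) ℤ) (j : Fin N) : P.InvK (vU n U j) :=
  invK_sum _ fun i _ => invK_smul _ (invK_bB (n.e i))

theorem chK_vU (U : Matrix (Fin N) (Fin N) ℤ) (j : Fin N) (u : P.D.W) :
    P.D.chK (vU n U j) u = ∑ i, P.D.chK (bB (n.e i)) u * (U i j : ℂ) := by
  rw [← chH_apply]
  unfold vU
  rw [map_sum]
  refine Finset.sum_congr rfl fun i _ => ?_
  rw [map_zsmul, zsmul_eq_mul, mul_comm]
  rfl

theorem eul_vU (U : Matrix (Fin N) (Fin N) ℤ) (i j : Fin N) :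
    P.D.eul (vU n U i) (vU n U j) = ∑ k, ∑ l, (U k i : ℂ) * (U l j : ℂ) *
      P.D.eul (bB (n.e k)) (bB (n.e l)) := by
  have h1 : P.D.eulH (vU n U i) = ∑ k, U k i • P.D.eulH (bB (n.e k)) := by
    unfold vU
    rw [map_sum]
    exact Finset.sum_congr rfl fun k _ => map_zsmul _ _ _
  rw [← eulH_apply, h1, AddMonoidHom.finsetSum_apply]
  refine Finset.sum_congr rfl fun k _ => ?_
  unfold vU
  rw [AddMonoidHom.smul_apply, map_sum, Finset.smul_sum]
  refine Finset.sum_congr rfl fun l _ => ?_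
  rw [map_zsmul, zsmul_eq_mul, zsmul_eq_mul, mul_assoc]
  rfl

/-- the coordinates in the basis `b_w` -/
noncomputable def cZ (x : P.D.KB) (w : P.X) : ℤ := (basis P).choose x w

/-- the coordinates in the basis `vU` -/
noncomputable def aU (U : Matrix (Fin N) (Fin N) ℤ) (x : P.D.KB) (j : Fin N) : ℤ :=
  ∑ k, U⁻¹ j k * cZ x (n.e k)

private theorem U_aU {U : Matrix (Fin N) (Fin N) ℤ} (hU : IsUnit U.det) (x : P.D.KB) (i : Fin N) :
    ∑ j, (U i j : ℂ) * (aU n U x j : ℂ) = (cZ x (n.e i) : ℂ) := by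
  have h1 : U.mulVec (aU n U x) = fun k => cZ x (n.e k) := by
    have h2 : aU n U x = U⁻¹.mulVec fun k => cZ x (n.e k) := rfl
    rw [h2, Matrix.mulVec_mulVec, Matrix.mul_nonsing_inv _ hU, Matrix.one_mulVec]
  have h3 := congrFun h1 i
  have h4 : ((U.mulVec (aU n U x) i : ℤ) : ℂ) = (cZ x (n.e i) : ℂ) := by rw [h3]
  rw [← h4]
  unfold Matrix.mulVec dotProduct
  push_cast
  rfl

theorem chK_aU {U : Matrix (Fin N) (Fin N) ℤ} (hU : IsUnit U.det) {x : P.D.KB} (hx : P.InvK x)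
    (u : P.D.W) : P.D.chK x u = ∑ j, (aU n U x j : ℂ) * P.D.chK (vU n U j) u := by
  have h0 : P.D.chK x u = ∑ w, (cZ x w : ℂ) * P.D.chK (bB w) u := (basis P).choose_spec.1 x hx u
  rw [h0, ← Equiv.sum_comp n.e]
  simp only [chK_vU, Finset.mul_sum]
  rw [Finset.sum_comm]
  refine Finset.sum_congr rfl fun i _ => ?_
  rw [← U_aU n hU x i, Finset.sum_mul]
  refine Finset.sum_congr rfl fun j _ => ?_
  ring

theorem eul_aU {U : Matrix (Fin N) (Fin N) ℤ} (hU : IsUnit U.det) {x y : P.D.KB}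
    (hx : P.InvK x) (hy : P.InvK y) :
    P.D.eul x y = ∑ i, ∑ j, (aU n U x i : ℂ) * (aU n U y j : ℂ) *
      P.D.eul (vU n U i) (vU n U j) := by
  have h0 : P.D.eul x y = ∑ w, ∑ w', (cZ x w : ℂ) * (cZ y w' : ℂ) *
      P.D.eul (bB w) (bB w') := (basis P).choose_spec.2 x y hx hy
  have h1 : P.D.eul x y = ∑ k, ∑ l, (cZ x (n.e k) : ℂ) * (cZ y (n.e l) : ℂ) *
      P.D.eul (bB (n.e k)) (bB (n.e l)) := by
    rw [h0, ← Equiv.sum_comp n.e]
    refine Finset.sum_congr rfl fun k _ => ?_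
    rw [← Equiv.sum_comp n.e]
  have h2 : ∀ k l, (cZ x (n.e k) : ℂ) * (cZ y (n.e l) : ℂ) *
      P.D.eul (bB (n.e k)) (bB (n.e l)) =
      ∑ i, ∑ j, (aU n U x i : ℂ) * (aU n U y j : ℂ) * ((U k i : ℂ) * (U l j : ℂ) *
        P.D.eul (bB (n.e k)) (bB (n.e l))) := by
    intro k l
    rw [← U_aU n hU x k, ← U_aU n hU y l, Finset.sum_mul_sum, Finset.sum_mul]
    refine Finset.sum_congr rfl fun i _ => ?_
    rw [Finset.sum_mul]
    refine Finset.sum_congr rfl fun j _ => ?_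
    ring
  rw [h1]
  simp only [h2, eul_vU, Finset.mul_sum]
  calc ∑ k, ∑ l, ∑ i, ∑ j, (aU n U x i : ℂ) * (aU n U y j : ℂ) * ((U k i : ℂ) * (U l j : ℂ) *
        P.D.eul (bB (n.e k)) (bB (n.e l)))
      = ∑ k, ∑ i, ∑ l, ∑ j, (aU n U x i : ℂ) * (aU n U y j : ℂ) * ((U k i : ℂ) * (U l j : ℂ) *
        P.D.eul (bB (n.e k)) (bB (n.e l))) := Finset.sum_congr rfl fun k _ => Finset.sum_comm
    _ = ∑ i, ∑ k, ∑ l, ∑ j, (aU n U x i : ℂ) * (aU n U y j : ℂ) * ((U k i : ℂ) * (U l j : ℂ) *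
        P.D.eul (bB (n.e k)) (bB (n.e l))) := Finset.sum_comm
    _ = ∑ i, ∑ k, ∑ j, ∑ l, (aU n U x i : ℂ) * (aU n U y j : ℂ) * ((U k i : ℂ) * (U l j : ℂ) *
        P.D.eul (bB (n.e k)) (bB (n.e l))) :=
          Finset.sum_congr rfl fun i _ => Finset.sum_congr rfl fun k _ => Finset.sum_comm
    _ = _ := Finset.sum_congr rfl fun i _ => Finset.sum_comm

/-- the matrix with columns `ch(v_j)` -/
noncomputable def cM (v : Fin N → P.D.KB) : Matrix P.X (Fin N) ℂ :=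
  Matrix.of fun u j => P.D.chK (v j) u.1

theorem GM_U {t : Fin r → ℂ} (ht : P.Inv t) (U : Matrix (Fin N) (Fin N) ℤ) :
    (P.GM t 0).submatrix id n.e * U.map (Int.castRingHom ℂ) =
      P.GEX t * (smallF P t).twist * cM (vU n U) := by
  have h1 : ∀ u i, P.GM t 0 u i = ∑ v, (P.GEX t * (smallF P t).twist) u v *
      P.D.chK (bB i) v.1 := by
    intro u i
    rw [GM_zero ht]
    refine Finset.sum_congr rfl fun v _ => ?_
    rw [cls_Bk, Small.twist, Matrix.mul_diagonal, ← len_val]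
    show _ = P.GEX t u v * (2 * Real.pi * Complex.I) ^ P.len v.1 * _
    ring
  ext u j
  rw [Matrix.mul_apply]
  have h5 : ∀ i, (P.GM t 0).submatrix id n.e u i * (U.map (Int.castRingHom ℂ)) i j =
      ∑ v, (P.GEX t * (smallF P t).twist) u v * (P.D.chK (bB (n.e i)) v.1 * (U i j : ℂ)) := by
    intro i
    rw [Matrix.submatrix_apply, id, h1, Finset.sum_mul, Matrix.map_apply]
    refine Finset.sum_congr rfl fun v _ => ?_
    rw [mul_assoc]
    rfl
  rw [Finset.sum_congr rfl fun i _ => h5 i, Finset.sum_comm, Matrix.mul_apply]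
  refine Finset.sum_congr rfl fun v _ => ?_
  rw [← Finset.mul_sum, ← chK_vU]
  rfl

/-- The numerical form of the conjecture of Dubrovin for the flag varieties `G/Q`. -/
theorem final_rsP {t : Fin r → ℂ} (ht : P.Inv t) (M : MonodromyData (smallF P t) N) :
    ∃ v : Fin N → P.D.KB, (∀ j, P.InvK (v j)) ∧
      (∀ x : P.D.KB, P.InvK x → ∃ c : Fin N → ℤ, ∀ u,
        P.D.chK x u = ∑ j, (c j : ℂ) * P.D.chK (v j) u) ∧
      (∀ a : Fin N → ℂ, (cM v).mulVec a = 0 → a = 0) ∧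
      (∀ i j, M.S i j = P.D.eul (v i) (v j)) ∧
      (∀ w, M.Xminus w = (Complex.I / (Real.sqrt (2 * Real.pi) : ℂ)) ^ P.dm •
        (Zst n t w * (P.GEX t * (smallF P t).twist * cM v))) ∧
      ∃ C' : Matrix P.X P.X ℂ, C' * (smallF P t).cup = (smallF P t).cup * C' ∧ C'.det ≠ 0 ∧
        M.C = C' * (smallF P t).twist * cM v ∧
        ∀ (x y : P.D.KB) (w : ℂ), P.InvK x → P.InvK y → flatPairing M w
          ((C' * (smallF P t).twist).mulVec fun u => P.D.chK x u.1)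
          ((C' * (smallF P t).twist).mulVec fun u => P.D.chK y u.1) = P.D.eul x y := by
  obtain ⟨U, hU, hS, hX, K, hK1, hK2, hK3, hK4⟩ := main_flag n ht (kd ht) M
  have hok := ok_smallF ht
  have hGMe : (kd ht).G 0 = P.GM t 0 := rfl
  rw [hGMe] at hX hK4
  obtain ⟨c, hc⟩ : ∃ c : ℂ, c = (Complex.I / (Real.sqrt (2 * Real.pi) : ℂ)) ^ P.dm := ⟨_, rfl⟩
  rw [← hc] at hK4
  have hc0 : c ≠ 0 := by
    rw [hc]
    refine pow_ne_zero _ (div_ne_zero Complex.I_ne_zero ?_)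
    exact_mod_cast (Real.sqrt_pos.2 (by positivity)).ne'
  have hKu : IsUnit K.det := isUnit_iff_ne_zero.2 hK2
  have hGM := GM_U n ht U
  have hGd : (P.GEX t).det ≠ 0 := GEX_det ht
  have hGc : P.GEX t * (smallF P t).cup = (smallF P t).cup * P.GEX t := GEX_comm ht P.inv_ctr
  have hSe : ∀ i j, M.S i j = P.D.eul (vU n U i) (vU n U j) := by
    intro i j
    rw [hS, eul_vU, Matrix.mul_apply]
    simp only [Matrix.mul_apply, Matrix.transpose_apply, Matrix.map_apply, Matrix.of_apply,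
      Finset.sum_mul]
    rw [Finset.sum_comm]
    refine Finset.sum_congr rfl fun k _ => Finset.sum_congr rfl fun l _ => ?_
    have h1 : (kd ht).χ (n.e k) (n.e l) = P.chiM (n.e k) (n.e l) := rfl
    rw [h1, chiM_eul]
    simp only [Int.coe_castRingHom]
    ring
  obtain ⟨C', hC'⟩ : ∃ C' : Matrix P.X P.X ℂ, C' = c • (K⁻¹ * P.GEX t) := ⟨_, rfl⟩
  have hC : M.C = C' * (smallF P t).twist * cM (vU n U) := by
    rw [hGM] at hK4
    have h1 : M.C = K⁻¹ * (K * M.C) := by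
      rw [← Matrix.mul_assoc, Matrix.nonsing_inv_mul _ hKu, Matrix.one_mul]
    rw [h1, hK4, hC', Matrix.mul_smul, Matrix.smul_mul, Matrix.smul_mul]
    simp only [Matrix.mul_assoc]
  have hvec : ∀ x : P.D.KB, P.InvK x → (C' * (smallF P t).twist).mulVec (fun u => P.D.chK x u.1) =
      M.C.mulVec fun j => (aU n U x j : ℂ) := by
    intro x hx
    rw [hC, ← Matrix.mulVec_mulVec _ (C' * (smallF P t).twist) (cM (vU n U))]
    congr 1
    funext u
    rw [chK_aU n hU hx u.1]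
    show ∑ j, (aU n U x j : ℂ) * P.D.chK (vU n U j) u.1 =
      ∑ j, P.D.chK (vU n U j) u.1 * (aU n U x j : ℂ)
    exact Finset.sum_congr rfl fun j _ => mul_comm _ _
  refine ⟨vU n U, invK_vU n U, fun x hx => ⟨aU n U x, fun u => chK_aU n hU hx u⟩, ?_, hSe, ?_,
    C', ?_, ?_, hC, ?_⟩
  · intro a ha
    refine C_inj hok n.e M ?_
    rw [hC, ← Matrix.mulVec_mulVec, ha, Matrix.mulVec_zero]
  · intro w
    rw [hX w, Matrix.mul_assoc, hGM]
  · rw [hC', Matrix.smul_mul, Matrix.mul_smul, Matrix.mul_assoc, hGc, ← Matrix.mul_assoc,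
      ← Matrix.mul_assoc]
    congr 2
    have h1 : K⁻¹ * (K * (smallF P t).cup) * K⁻¹ = K⁻¹ * ((smallF P t).cup * K) * K⁻¹ := by
      rw [hK1]
    rw [← Matrix.mul_assoc, Matrix.nonsing_inv_mul _ hKu, Matrix.one_mul, ← Matrix.mul_assoc,
      Matrix.mul_assoc (K⁻¹ * (smallF P t).cup), Matrix.mul_nonsing_inv _ hKu, Matrix.mul_one] at h1
    exact h1.symm
  · rw [hC', Matrix.det_smul, Matrix.det_mul, Matrix.det_nonsing_inv]
    refine mul_ne_zero (pow_ne_zero _ hc0) (mul_ne_zero ?_ hGd)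
    rw [Ring.inverse_eq_inv']
    exact inv_ne_zero hK2
  · intro x y w hx hy
    rw [hvec x hx, hvec y hy, flatPairing_C hok n.e, eul_aU n hU hx hy]
    show ∑ i, (aU n U x i : ℂ) * ∑ j, M.S i j * (aU n U y j : ℂ) = _
    refine Finset.sum_congr rfl fun i _ => ?_
    rw [Finset.mul_sum]
    refine Finset.sum_congr rfl fun j _ => ?_
    rw [hSe i j]
    ring

end Pool.Agent.FLG.Par
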