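import Pool.Agent.FLG.PK.Defs
import Pool.Agent.FLG.P.Cos

/-!
# FLG-ZP-Inv: invariance under the Levi Weyl group and under the simple reflections
-/

set_option autoImplicit false

open scoped BigOperators Topology
open Filter
open Pool.Agent.DST.TE Pool.Agent.DSTJ.Spec

namespace Pool.Agent.FLG.Par

open RS

variable {r : ℕ} {P : Par r}

private theorem hv_ca {D : RS r} (κ : Fin r → ℤ) (p : D.W) (y : Fin r → ℂ) :
    D.hv (ca κ) p y = pr (D.rt p κ) y := by
  rw [D.pr_rt]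
  rfl

private theorem pr_sub_left (a b : Fin r → ℤ) (y : Fin r → ℂ) : pr (a - b) y = pr a y - pr b y := by
  simp only [pr, Pi.sub_apply, ← Finset.sum_sub_distrib]
  exact Finset.sum_congr rfl fun i _ => by push_cast; ring

theorem isWt_ca {D : RS r} (κ : Fin r → ℤ) : D.IsWt (ca κ) := by
  intro i
  refine ⟨∑ j, κ j * D.co (al i) j, ?_⟩
  unfold ch ca
  push_cast
  rfl

theorem dl_ca {D : RS r} (κ : Fin r → ℤ) (p : D.W) : D.dl (ca κ) p = D.rt p κ - κ := by
  refine dl_unique (isWt_ca κ) fun y => ?_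
  rw [hv_ca, hv_ca, D.rt_one, pr_sub_left]
  ring

theorem ca_add (κ μ : Fin r → ℤ) : ca (κ + μ) = ca κ + ca μ := by
  funext i
  simp [ca]

theorem ca_neg (κ : Fin r → ℤ) : ca (-κ) = -ca κ := by
  funext i
  simp [ca]

theorem ca_zero : ca (0 : Fin r → ℤ) = 0 := by
  funext i
  simp [ca]

theorem dl_shift {D : RS r} {h : Fin r → ℂ} (hh : D.IsWt h) (v w : D.W) :
    D.dl (h + ca (D.dl h w)) v = D.dl h (v * w) - D.dl h w := by
  rw [dl_add hh (isWt_ca _), dl_ca, dl_mul hh]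
  abel

theorem dl_s {D : RS r} {h : Fin r → ℂ} (hh : D.IsWt h) {j : Fin r} {n : ℤ}
    (hn : D.ch h (al j) = n) : D.dl h (D.s j) = -(n • al j) := by
  obtain ⟨n', h1, h2⟩ := dl_refl hh 1 (D.al_mem j)
  rw [inv_one, D.rt_one, hn] at h1
  have h3 : n' = n := by exact_mod_cast h1.symm
  rw [mul_one, dl_one hh, zero_sub, h3] at h2
  exact h2

private theorem s_mem {j : Fin r} (hj : j ∈ P.J) : P.D.s j ∈ P.WJ :=
  Subgroup.subset_closure ⟨j, hj, rfl⟩

theorem invK_iff {x : P.D.KB} : P.InvK x ↔ ∀ j ∈ P.J, ∀ h k : {h : Fin r → ℂ // P.D.IsWt h},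
    ∀ n : ℤ, P.D.ch h.1 (al j) = n → k.1 = h.1 - ca (n • al j) → x k = x h := by
  constructor
  · intro H j hj h k n hn hk
    refine H _ (s_mem hj) h k ?_
    rw [hk, dl_s h.2 hn, ca_neg, sub_eq_add_neg]
  · intro H w hw
    unfold WJ at hw
    induction hw using Subgroup.closure_induction with
    | mem w hw =>
      obtain ⟨j, hj, rfl⟩ := hw
      intro h k hk
      obtain ⟨n, hn⟩ := h.2 j
      refine H j hj h k n hn ?_
      have h1 : k.1 = h.1 + ca (P.D.dl h.1 (P.D.s j)) := hk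
      rw [h1, dl_s h.2 hn, ca_neg, sub_eq_add_neg]
    | one =>
      intro h k hk
      rw [dl_one h.2, ca_zero, add_zero] at hk
      rw [Subtype.ext hk]
    | mul v w _ _ hv hw =>
      intro h k hk
      have hwt : P.D.IsWt (h.1 + ca (P.D.dl h.1 w)) := isWt_add h.2 (isWt_ca _)
      have h1 := hw h ⟨_, hwt⟩ rfl
      have h2 := hv ⟨_, hwt⟩ k (by
        show k.1 = (h.1 + ca (P.D.dl h.1 w)) + ca (P.D.dl (h.1 + ca (P.D.dl h.1 w)) v)
        rw [hk, dl_shift h.2, add_assoc, ← ca_add]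
        congr 2
        abel)
      rw [h2, h1]
    | inv v _ hv =>
      intro h k hk
      refine (hv k h ?_).symm
      rw [hk, dl_shift h.2, mul_inv_cancel, dl_one h.2, zero_sub, ca_neg]
      abel

end Pool.Agent.FLG.Par
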