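import Pool.Agent.FLG.FlagP
import Pool.Agent.FLG.Z.Fin
import Pool.Agent.FLG.P.Cos
import Pool.Agent.FLG.PK.Defs

/-!
# FLG-ZP-Tr: the model in coordinates of a flag variety `G/Q`
-/

set_option autoImplicit false
set_option linter.unusedSectionVars false

open scoped BigOperators Topology
open Filter
open Pool.Agent.DST.TE

namespace Pool.Agent.FLG

variable {ι V V' : Type} [Fintype ι] [AddCommGroup V] [Module ℂ V] [AddCommGroup V'] [Module ℂ V']
  {P : RootPairing ι ℂ V V'} [P.IsCrystallographic] {b : P.Base} {r : ℕ} {D : RS r}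

namespace IsModel

variable (m : IsModel P b D)

theorem li : LinearIndependent ℂ fun k => P.root (m.e k) :=
  b.linearIndepOn_root.comp m.e m.e.injective

theorem bk_inj : Function.Injective m.bk := m.li.fintypeLinearCombination_injective

theorem s_bk [P.IsRootSystem] (h : Fin r → ℂ) : m.s (m.bk h) = h := m.bk_inj (m.bk_s _)

variable (J : Set ι)

open Classical in
/-- the parabolic subgroup -/
noncomputable def par : Par r := ⟨D, Finset.univ.filter fun k => (m.e k : ι) ∈ J⟩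

theorem mem_par {k : Fin r} : k ∈ (m.par J).J ↔ (m.e k : ι) ∈ J := by
  classical
  show k ∈ Finset.univ.filter _ ↔ _
  simp

theorem exists_mem {J : Set ι} (hJ : J ⊆ b.support) {j : ι} (hj : j ∈ J) :
    ∃ k, (m.e k : ι) = j ∧ k ∈ (m.par J).J := by
  refine ⟨m.e.symm ⟨j, hJ hj⟩, ?_, ?_⟩
  · rw [Equiv.apply_symm_apply]
  · rw [mem_par, Equiv.apply_symm_apply]
    exact hj

theorem span_iff {J : Set ι} (hJ : J ⊆ b.support) (i : ι) :
    P.root i ∈ Submodule.span ℂ (P.root '' J) ↔ ∀ k, k ∉ (m.par J).J → m.v i k = 0 := by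
  have h1 : P.root i = ∑ k, ((m.v i k : ℤ) : ℂ) • P.root (m.e k) := by
    rw [m.root i]
    exact Finset.sum_congr rfl fun k _ => (Int.cast_smul_eq_zsmul ℂ _ _).symm
  have h2 : P.root '' J = (fun k => P.root (m.e k)) '' {k | (m.e k : ι) ∈ J} := by
    ext x
    constructor
    · rintro ⟨j, hj, rfl⟩
      obtain ⟨k, hk, -⟩ := m.exists_mem hJ hj
      exact ⟨k, by show (m.e k : ι) ∈ J; rw [hk]; exact hj, by show P.root (m.e k) = _; rw [hk]⟩
    · rintro ⟨k, hk, rfl⟩
      exact ⟨m.e k, hk, rfl⟩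
  constructor
  · intro h k hk
    rw [h2] at h
    by_contra hne
    have h3 : P.root (m.e k) ∈ Submodule.span ℂ ((fun k => P.root (m.e k)) '' {k}ᶜ) := by
      have h4 : P.root i - ∑ l ∈ Finset.univ.erase k, ((m.v i l : ℤ) : ℂ) • P.root (m.e l) ∈
          Submodule.span ℂ ((fun k => P.root (m.e k)) '' {k}ᶜ) := by
        refine Submodule.sub_mem _ (Submodule.span_mono (Set.image_mono ?_) h) ?_
        · intro l hl hlk
          rw [hlk] at hl
          exact hk ((m.mem_par J).2 hl)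
        · refine Submodule.sum_mem _ fun l hl => Submodule.smul_mem _ _ (Submodule.subset_span ?_)
          exact ⟨l, (Finset.mem_erase.1 hl).1, rfl⟩
      have h5 : P.root i - ∑ l ∈ Finset.univ.erase k, ((m.v i l : ℤ) : ℂ) • P.root (m.e l) =
          ((m.v i k : ℤ) : ℂ) • P.root (m.e k) := by
        rw [h1, ← Finset.add_sum_erase Finset.univ _ (Finset.mem_univ k)]
        abel
      rw [h5] at h4
      have h6 : ((m.v i k : ℤ) : ℂ) ≠ 0 := by exact_mod_cast hne
      exact (Submodule.smul_mem_iff _ h6).1 h4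
    exact m.li.notMem_span_image (s := {k}ᶜ) (x := k) (by simp) h3
  · intro h
    rw [h1]
    refine Submodule.sum_mem _ fun k _ => ?_
    by_cases hk : k ∈ (m.par J).J
    · exact Submodule.smul_mem _ _ (Submodule.subset_span ⟨m.e k, (m.mem_par J).1 hk, rfl⟩)
    · rw [h k hk, Int.cast_zero, zero_smul]
      exact Submodule.zero_mem _

theorem mem_pos' {J : Set ι} (hJ : J ⊆ b.support) {i : ι} :
    i ∈ FlagP.pos b J ↔ m.v i ∈ (m.par J).Pos := by
  classical
  unfold FlagP.pos Par.Pos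
  rw [Finset.mem_filter, Finset.mem_filter, m.span_iff hJ, ← m.pos_iff]
  push Not
  simp [par]

theorem sum_pos' {J : Set ι} (hJ : J ⊆ b.support) {M : Type*} [AddCommMonoid M]
    (f : (Fin r → ℤ) → M) : ∑ i ∈ FlagP.pos b J, f (m.v i) = ∑ a ∈ (m.par J).Pos, f a := by
  refine Finset.sum_bij (fun i _ => m.v i) (fun i hi => (m.mem_pos' hJ).1 hi)
    (fun i _ j _ h => m.v_inj h) (fun a ha => ?_) fun i _ => rfl
  obtain ⟨i, hi⟩ := (m.range_v a).1 (RS.mem_of_pos (Finset.mem_filter.1 ha).1)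
  exact ⟨i, (m.mem_pos' hJ).2 (by rw [hi]; exact ha), hi⟩

theorem card_pos' {J : Set ι} (hJ : J ⊆ b.support) : (FlagP.pos b J).card = (m.par J).dm := by
  unfold Par.dm
  rw [Finset.card_eq_sum_ones, Finset.card_eq_sum_ones]
  exact m.sum_pos' hJ fun _ => 1

theorem c1_eq' {J : Set ι} (hJ : J ⊆ b.support) : FlagP.c₁ b J = m.bk (m.par J).ctr := by
  unfold FlagP.c₁
  rw [bk_apply]
  have h1 : ∀ i, P.root i = ∑ k, ((m.v i k : ℤ) : ℂ) • P.root (m.e k) := by
    intro i
    rw [m.root i]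
    exact Finset.sum_congr rfl fun k _ => (Int.cast_smul_eq_zsmul ℂ _ _).symm
  rw [Finset.sum_congr rfl fun i _ => h1 i, Finset.sum_comm]
  refine Finset.sum_congr rfl fun k _ => ?_
  rw [← Finset.sum_smul]
  congr 1
  rw [m.sum_pos' hJ fun a => ((a k : ℤ) : ℂ)]
  unfold Par.ctr Par.tr
  rw [Finset.sum_apply]
  push_cast
  rfl

theorem ch_ctr'' {J : Set ι} (hJ : J ⊆ b.support) (i : ι) :
    P.coroot' i (FlagP.c₁ b J) = (m.par J).L (m.v i) := by
  rw [m.c1_eq' hJ, ← m.ch_bk]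
  exact Par.ch_ctr (P := m.par J) (m.v i)

theorem mem_levi {J : Set ι} (hJ : J ⊆ b.support) (w : P.weylGroup) :
    w ∈ FlagP.levi P J ↔ m.f w ∈ (m.par J).WJ := by
  have h1 : (FlagP.levi P J).map m.f.toMonoidHom = (m.par J).WJ := by
    unfold FlagP.levi Par.WJ
    rw [MonoidHom.map_closure]
    congr 1
    ext x
    constructor
    · rintro ⟨w, ⟨j, hj, rfl⟩, rfl⟩
      obtain ⟨k, hk, hk'⟩ := m.exists_mem hJ hj
      refine ⟨k, hk', ?_⟩
      show D.refl (RS.al k) = m.f (RootPairing.weylGroup.ofIdx P j)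
      rw [m.f_refl, ← hk, m.v_e]
    · rintro ⟨k, hk, rfl⟩
      refine ⟨RootPairing.weylGroup.ofIdx P (m.e k), ⟨m.e k, (m.mem_par J).1 hk, rfl⟩, ?_⟩
      show m.f (RootPairing.weylGroup.ofIdx P (m.e k)) = D.refl (RS.al k)
      rw [m.f_refl, m.v_e]
  rw [← h1]
  constructor
  · intro h
    exact ⟨w, h, rfl⟩
  · rintro ⟨w', hw', h2⟩
    have h3 : w' = w := m.f.injective h2
    rw [← h3]
    exact hw'

theorem rep_iff {J : Set ι} (hJ : J ⊆ b.support) (w : P.weylGroup) :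
    (∀ j ∈ J, b.IsPos (P.weylGroupToPerm w j)) ↔
      ∀ k ∈ (m.par J).J, (m.par J).D.rt (m.f w) (RS.al k) ∈ (m.par J).D.Pos := by
  constructor
  · intro h k hk
    have h1 := h _ ((m.mem_par J).1 hk)
    rw [← m.pos_iff, ← m.f_root, m.v_e] at h1
    exact h1
  · intro h j hj
    obtain ⟨k, hk, hk'⟩ := m.exists_mem hJ hj
    have h1 := h k hk'
    rw [← hk, ← m.pos_iff, ← m.f_root, m.v_e]
    exact h1

/-- the numbering of the Schubert classes in coordinates -/
noncomputable def fX {J : Set ι} (hJ : J ⊆ b.support) : FlagP.Rep b J ≃ (m.par J).X :=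
  m.f.toEquiv.subtypeEquiv fun w => m.rep_iff hJ w

theorem fX_val {J : Set ι} (hJ : J ⊆ b.support) (u : FlagP.Rep b J) :
    (m.fX hJ u).1 = m.f u.1 := rfl

theorem len_eq' {J : Set ι} (hJ : J ⊆ b.support) (u : FlagP.Rep b J) :
    Flag.len b u.1 = (m.par J).len (m.fX hJ u).1 := by
  rw [Par.len_val, m.len_eq]
  rfl

theorem coset_iff {J : Set ι} (hJ : J ⊆ b.support) (u w : FlagP.Rep b J) (i : ι) :
    u.1⁻¹ * (w.1 * RootPairing.weylGroup.ofIdx P i) ∈ FlagP.levi P J ↔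
      m.fX hJ u = (m.par J).fl ((m.fX hJ w).1 * (m.par J).D.refl (m.v i)) := by
  rw [m.mem_levi hJ, map_mul, map_mul, map_inv, m.f_refl]
  have h1 := Par.fl_eq_iff (P := m.par J) (m.fX hJ u).1 ((m.fX hJ w).1 * (m.par J).D.refl (m.v i))
  rw [Par.fl_val] at h1
  exact h1.symm

theorem cupP_bk {J : Set ι} (hJ : J ⊆ b.support) (h : Fin r → ℂ) :
    FlagP.cup b J (m.bk h) =
      ((m.par J).E0 ((m.par J).D.ch h)).submatrix (m.fX hJ) (m.fX hJ) := by
  classical
  ext u w
  unfold FlagP.cup Par.E0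
  rw [Matrix.submatrix_apply, Matrix.of_apply, Matrix.of_apply, ← m.sum_pos' hJ]
  refine Finset.sum_congr rfl fun i _ => ?_
  have h1 : (m.par J).D.ch h (m.v i) = P.coroot' i (m.bk h) := m.ch_bk h i
  rw [h1, m.len_eq' hJ, m.len_eq' hJ]
  refine if_congr ?_ rfl rfl
  rw [m.coset_iff hJ]

theorem mulP_bk {J : Set ι} (hJ : J ⊆ b.support) (t h : Fin r → ℂ) :
    FlagP.mul b J (m.bk t) (m.bk h) =
      ((m.par J).E ((m.par J).D.ch h) t).submatrix (m.fX hJ) (m.fX hJ) := by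
  classical
  ext u w
  unfold FlagP.mul
  rw [Matrix.add_apply, m.cupP_bk hJ, Matrix.submatrix_apply, Matrix.submatrix_apply,
    Matrix.of_apply]
  unfold Par.E Par.E0
  rw [Matrix.of_apply, Matrix.of_apply, ← m.sum_pos' hJ, ← m.sum_pos' hJ,
    ← Finset.sum_add_distrib]
  refine Finset.sum_congr rfl fun i _ => ?_
  have h0 : (m.par J).D.ch h (m.v i) = P.coroot' i (m.bk h) := m.ch_bk h i
  have hq : RS.qq t ((m.par J).D.co (m.v i)) = Complex.exp (P.coroot' i (m.bk t)) := m.qq_bk t i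
  rw [h0, hq, m.ch_ctr'' hJ, m.len_eq' hJ, m.len_eq' hJ]
  have h1 : (((m.par J).len (m.fX hJ u).1 : ℂ) + ((m.par J).L (m.v i) : ℂ) =
      (m.par J).len (m.fX hJ w).1 + 1) ↔
      (((m.par J).len (m.fX hJ u).1 : ℤ) + (m.par J).L (m.v i) =
        (m.par J).len (m.fX hJ w).1 + 1) := by
    constructor
    · intro h
      exact_mod_cast h
    · intro h
      exact_mod_cast h
  simp only [m.coset_iff hJ, h1]
  by_cases h2 : m.fX hJ u = (m.par J).fl ((m.fX hJ w).1 * (m.par J).D.refl (m.v i))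
  · rw [if_pos h2]
    by_cases h4 : (m.par J).len (m.fX hJ u).1 = (m.par J).len (m.fX hJ w).1 + 1
    · by_cases h5 : ((m.par J).len (m.fX hJ u).1 : ℤ) + (m.par J).L (m.v i) =
        (m.par J).len (m.fX hJ w).1 + 1
      · rw [if_pos ⟨h2, h4⟩, if_pos ⟨h2, h5⟩, if_pos h4, if_pos h5]
        ring
      · rw [if_pos ⟨h2, h4⟩, if_neg (fun h => h5 h.2), if_pos h4, if_neg h5]
        ring
    · by_cases h5 : ((m.par J).len (m.fX hJ u).1 : ℤ) + (m.par J).L (m.v i) =
        (m.par J).len (m.fX hJ w).1 + 1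
      · rw [if_neg (fun h => h4 h.2), if_pos ⟨h2, h5⟩, if_neg h4, if_pos h5]
        ring
      · rw [if_neg (fun h => h4 h.2), if_neg (fun h => h5 h.2), if_neg h4, if_neg h5]
        ring
  · rw [if_neg h2, if_neg (fun h => h2 h.1), if_neg (fun h => h2 h.1), add_zero]

private theorem long_iff (x : P.weylGroup) :
    (∀ i, b.IsPos i → ¬ b.IsPos (P.weylGroupToPerm x i)) ↔ m.f x = D.w0 := by
  have hself : ∀ i, b.IsPos (P.weylGroupToPerm 1 i) ↔ b.IsPos i := by
    intro i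
    rw [map_one]
    rfl
  have h0 := m.w0_iff x 1
  rw [map_one, mul_one] at h0
  rw [h0]
  constructor
  · intro h i
    rw [hself]
    constructor
    · intro h1 h2
      exact h i h2 h1
    · intro h1
      rw [← m.pos_iff] at h1 ⊢
      have h2 := (RS.not_pos_iff (m.v_mem i)).1 h1
      obtain ⟨j, hj⟩ := (m.range_v _).1 (RS.mem_of_pos h2)
      have h3 : b.IsPos j := by
        rw [← m.pos_iff, hj]
        exact h2
      have h4 := h j h3
      rw [← m.pos_iff, ← m.f_root, hj, D.rt_neg] at h4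
      rw [← m.f_root]
      by_contra h5
      exact h4 ((RS.not_pos_iff (D.rt_mem.2 (m.v_mem i))).1 h5)
  · intro h i hi h1
    have h2 := (h i).1 h1
    rw [hself] at h2
    exact h2 hi

theorem pair_iff {J : Set ι} (hJ : J ⊆ b.support) (u v : FlagP.Rep b J) :
    (∃ w₀ : P.weylGroup, (∀ i, b.IsPos i → ¬ b.IsPos (P.weylGroupToPerm w₀ i)) ∧
      u.1⁻¹ * (w₀ * v.1) ∈ FlagP.levi P J) ↔
      m.fX hJ u = (m.par J).lm (m.par J).D.w0 (m.fX hJ v) := by
  have h1 := Par.fl_eq_iff (P := m.par J) (m.fX hJ u).1 ((m.par J).D.w0 * (m.fX hJ v).1)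
  rw [Par.fl_val] at h1
  show _ ↔ m.fX hJ u = (m.par J).fl ((m.par J).D.w0 * (m.fX hJ v).1)
  rw [h1]
  constructor
  · rintro ⟨x, hx, h2⟩
    rw [m.mem_levi hJ, map_mul, map_mul, map_inv, (m.long_iff x).1 hx] at h2
    exact h2
  · intro h2
    refine ⟨m.f.symm D.w0, (m.long_iff _).2 (MulEquiv.apply_symm_apply _ _), ?_⟩
    rw [m.mem_levi hJ, map_mul, map_mul, map_inv, MulEquiv.apply_symm_apply]
    exact h2

theorem inv_s [P.IsRootSystem] {J : Set ι} (hJ : J ⊆ b.support) {t : V}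
    (ht : ∀ j ∈ J, P.coroot' j t = 0) : (m.par J).Inv (m.s t) := by
  intro k hk
  have h1 := ht _ ((m.mem_par J).1 hk)
  rw [← m.ch_s, m.v_e] at h1
  exact h1

end IsModel

end Pool.Agent.FLG
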