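import Pool.Agent.FLG.ZP.Main
import Pool.Agent.FLG.ZP.Tr
import Pool.Agent.FLG.ZP.Inv

/-!
# FLG-ZP-Fin: the numerical conjecture of Dubrovin for flag varieties `G/Q`
-/

set_option autoImplicit false
set_option linter.unusedSectionVars false

open scoped BigOperators Topology
open Filter
open Pool.Agent.DST.TE Pool.Agent.DSTJ.Spec Pool.Agent.FLG.Mo

namespace Pool.Agent.FLG

variable {ι V V' : Type} [Fintype ι] [AddCommGroup V] [Module ℂ V] [AddCommGroup V'] [Module ℂ V']
  {P : RootPairing ι ℂ V V'} [P.IsCrystallographic] {b : P.Base} {r : ℕ} {D : RS r}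

namespace IsModel

variable (m : IsModel P b D) {J : Set ι} (hJ : J ⊆ b.support)

include hJ in
theorem small_bkP (t : Fin r → ℂ) :
    FlagP.small b J (m.bk t) = (Par.smallF (m.par J) t).sub (m.fX hJ) := by
  classical
  unfold FlagP.small Small.sub Par.smallF
  congr 1
  · exact m.card_pos' hJ
  · funext w
    exact m.len_eq' hJ w
  · ext u v
    show (if ∃ w₀ : P.weylGroup, (∀ i, b.IsPos i → ¬ b.IsPos (P.weylGroupToPerm w₀ i)) ∧
      u.1⁻¹ * (w₀ * v.1) ∈ FlagP.levi P J then (1 : ℂ) else 0) =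
      if m.fX hJ u = (m.par J).lm (m.par J).D.w0 (m.fX hJ v) then 1 else 0
    exact if_congr (m.pair_iff hJ u v) rfl rfl
  · rw [m.c1_eq' hJ]
    exact m.cupP_bk hJ (m.par J).ctr
  · rw [m.c1_eq' hJ]
    exact m.mulP_bk hJ t (m.par J).ctr

theorem bk_ca_smul (n : ℤ) (k : Fin r) : m.bk (RS.ca (n • RS.al k)) = (n : ℂ) • P.root (m.e k) := by
  rw [bk_apply, Finset.sum_eq_single k]
  · congr 1
    simp [RS.ca, RS.al]
  · intro j _ hj
    simp [RS.ca, RS.al, Pi.single_eq_of_ne hj]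
  · intro h
    exact absurd (Finset.mem_univ k) h

theorem back_apply (x : D.KB) (h : {h : Fin r → ℂ // D.IsWt h}) :
    m.back x ⟨m.bk h.1, m.of_isWt h.2⟩ = x h := by
  unfold back
  exact Finsupp.mapDomain_apply (f := fun h : {h : Fin r → ℂ // D.IsWt h} =>
    (⟨m.bk h.1, m.of_isWt h.2⟩ : {μ : V // ∀ i, ∃ n : ℤ, P.coroot' i μ = n}))
    (fun h k hk => Subtype.ext (m.bk_inj (Subtype.ext_iff.1 hk))) x h

theorem fwd_apply [P.IsRootSystem] (x : Flag.KClass P) (h : {h : Fin r → ℂ // D.IsWt h}) :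
    m.fwd x h = x ⟨m.bk h.1, m.of_isWt h.2⟩ := by
  have hinj : Function.Injective (fun μ : {μ : V // ∀ i, ∃ n : ℤ, P.coroot' i μ = n} =>
    (⟨m.s μ.1, m.isWt_of (by rw [m.bk_s]; exact μ.2)⟩ : {h : Fin r → ℂ // D.IsWt h})) := by
    intro μ ν h
    apply Subtype.ext
    rw [← m.bk_s μ.1, ← m.bk_s ν.1]
    exact congrArg m.bk (Subtype.ext_iff.1 h)
  have h1 := Finsupp.mapDomain_apply hinj x ⟨m.bk h.1, m.of_isWt h.2⟩
  have h2 : (⟨m.s (m.bk h.1), m.isWt_of (by rw [m.bk_s]; exact m.of_isWt h.2)⟩ :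
      {h : Fin r → ℂ // D.IsWt h}) = h := Subtype.ext (m.s_bk h.1)
  unfold fwd
  rw [← h1]
  exact congrArg _ h2.symm

theorem reflection_bk (k : Fin r) (h : Fin r → ℂ) {n : ℤ} (hn : D.ch h (RS.al k) = n) :
    P.reflection (m.e k) (m.bk h) = m.bk (h - RS.ca (n • RS.al k)) := by
  rw [P.reflection_apply, map_sub, m.bk_ca_smul]
  congr 2
  have h1 : P.coroot' (m.e k) (m.bk h) = D.ch h (m.v (m.e k)) := (m.ch_bk h _).symm
  rw [m.v_e, hn] at h1
  exact h1

include hJ in
theorem inv_back [P.IsRootSystem] {x : D.KB} (hx : (m.par J).InvK x) :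
    ∀ j ∈ J, ∀ μ ν : {μ : V // ∀ i, ∃ n : ℤ, P.coroot' i μ = n}, ν.1 = P.reflection j μ.1 →
      m.back x ν = m.back x μ := by
  intro j hj μ ν hν
  obtain ⟨k, hk, hk'⟩ := m.exists_mem hJ hj
  have hμw : D.IsWt (m.s μ.1) := m.isWt_of (by rw [m.bk_s]; exact μ.2)
  have hνw : D.IsWt (m.s ν.1) := m.isWt_of (by rw [m.bk_s]; exact ν.2)
  have h1 : m.back x μ = x ⟨m.s μ.1, hμw⟩ := by
    rw [← m.back_apply x ⟨m.s μ.1, hμw⟩]
    exact congrArg _ (Subtype.ext (m.bk_s μ.1).symm)
  have h2 : m.back x ν = x ⟨m.s ν.1, hνw⟩ := by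
    rw [← m.back_apply x ⟨m.s ν.1, hνw⟩]
    exact congrArg _ (Subtype.ext (m.bk_s ν.1).symm)
  rw [h1, h2]
  obtain ⟨n, hn⟩ := hμw k
  refine (Par.invK_iff (P := m.par J)).1 hx k hk' ⟨m.s μ.1, hμw⟩ ⟨m.s ν.1, hνw⟩ n hn ?_
  apply m.bk_inj
  rw [m.bk_s, hν, ← m.reflection_bk k _ hn, hk, m.bk_s]

include hJ in
theorem inv_fwd [P.IsRootSystem] (x : FlagP.KClass P J) : (m.par J).InvK (m.fwd x.1) := by
  refine (Par.invK_iff (P := m.par J)).2 fun k hk h h' n hn hh' => ?_
  have h1 : m.fwd x.1 h' = x.1 ⟨m.bk h'.1, m.of_isWt h'.2⟩ := m.fwd_apply x.1 h'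
  have h2 : m.fwd x.1 h = x.1 ⟨m.bk h.1, m.of_isWt h.2⟩ := m.fwd_apply x.1 h
  refine h1.trans (Eq.trans ?_ h2.symm)
  refine x.2 _ ((m.mem_par J).1 hk) _ _ ?_
  show m.bk h'.1 = P.reflection (m.e k) (m.bk h.1)
  rw [m.reflection_bk k _ hn, hh']

variable [Fintype P.weylGroup] [DecidableEq P.weylGroup]

include hJ in
theorem gammaP_bk (t : Fin r → ℂ) : FlagP.gammaOp b J (m.bk t) =
    ((m.par J).GEX t).submatrix (m.fX hJ) (m.fX hJ) := by
  obtain ⟨A, hA⟩ : ∃ A : Matrix D.W D.W ℂ, A = NormedSpace.exp (D.E0 (D.ch t) +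
      (Real.pi * Complex.I : ℂ) • D.E0 (D.ch (m.par J).ctr) +
      ∑ k ∈ Finset.Icc 1 D.dm, RS.gco k •
        ∑ a ∈ (m.par J).Pos, D.E0 (D.ch (RS.ca a)) ^ k) := ⟨_, rfl⟩
  have hGE : (m.par J).GEX t = Matrix.of fun v u => A v.1 u.1 := by
    rw [hA]
    rfl
  have key : NormedSpace.exp (Flag.cup b (m.bk t) +
      (Real.pi * Complex.I : ℂ) • Flag.cup b (FlagP.c₁ b J) +
      ∑ k ∈ Finset.Icc 1 (Flag.pos b).card, Flag.gcoeff k •
        ∑ i ∈ FlagP.pos b J, Flag.cup b (P.root i) ^ k) =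
      A.submatrix m.f.toEquiv m.f.toEquiv := by
    rw [hA, exp_subm]
    congr 1
    have hpow : ∀ (A : Matrix D.W D.W ℂ) (k : ℕ), (A.submatrix m.f.toEquiv m.f.toEquiv) ^ k =
        (A ^ k).submatrix m.f.toEquiv m.f.toEquiv := by
      intro A k
      exact (map_pow (Matrix.reindexAlgEquiv ℂ ℂ m.f.toEquiv.symm) A k).symm
    have h1 : ∀ h, Flag.cup b (m.bk h) = (D.E0 (D.ch h)).submatrix m.f.toEquiv m.f.toEquiv :=
      m.cup_bk
    have h2 : ∀ k, ∑ i ∈ FlagP.pos b J, Flag.cup b (P.root i) ^ k =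
        (∑ a ∈ (m.par J).Pos, D.E0 (D.ch (RS.ca a)) ^ k).submatrix m.f.toEquiv m.f.toEquiv := by
      intro k
      have h3 : ∀ i ∈ FlagP.pos b J, Flag.cup b (P.root i) ^ k =
          (fun a => (D.E0 (D.ch (RS.ca a)) ^ k).submatrix m.f.toEquiv m.f.toEquiv) (m.v i) := by
        intro i _
        rw [m.root_bk, h1, hpow]
      rw [Finset.sum_congr rfl h3]
      refine (m.sum_pos' hJ fun a => (D.E0 (D.ch (RS.ca a)) ^ k).submatrix m.f.toEquiv
        m.f.toEquiv).trans ?_
      ext u w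
      rw [Matrix.sum_apply, Matrix.submatrix_apply, Matrix.sum_apply]
      rfl
    rw [h1, m.c1_eq' hJ, h1, m.card_pos]
    simp only [h2]
    ext u w
    simp only [Matrix.add_apply, Matrix.sum_apply, Matrix.smul_apply, Matrix.submatrix_apply]
    rfl
  unfold FlagP.gammaOp
  rw [key, hGE]
  rfl

end IsModel

section final

variable (b) {J : Set ι} (hJ : J ⊆ b.support) [P.IsRootSystem] [P.IsReduced]

section basic

variable [Fintype (FlagP.Rep b J)] [DecidableEq (FlagP.Rep b J)]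

include hJ in
private theorem num_cardP {r : ℕ} {D : RS r} (m : IsModel P b D) :
    Nonempty ((m.par J).Num (Fintype.card (FlagP.Rep b J))) := by
  have h := Par.exists_num (m.par J)
  rwa [← Fintype.card_congr (m.fX hJ)] at h

include hJ in
/-- Existence and uniqueness of the standard solution. -/
theorem exists_standardP {t : V} (ht : ∀ j ∈ J, P.coroot' j t = 0) :
    ∃! Z, IsStandard (FlagP.small b J t) Z := by
  obtain ⟨D, ⟨m⟩⟩ := exists_model P b
  obtain ⟨n⟩ := num_cardP b hJ m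
  have hs := m.inv_s hJ ht
  have h1 : FlagP.small b J t = (Par.smallF (m.par J) (m.s t)).sub (m.fX hJ) := by
    rw [← m.small_bkP hJ, m.bk_s]
  rw [h1]
  refine ⟨fun w => (Par.Zst n (m.s t) w).submatrix (m.fX hJ) (m.fX hJ),
    standard_sub _ (Par.isStandard_Zst n hs), fun Z hZ => ?_⟩
  have h2 := standard_unique (Par.ok_smallF hs) (standard_unsub _ hZ) (Par.isStandard_Zst n hs)
  funext w
  rw [← h2]
  ext i j
  simp

include hJ in
/-- Existence of monodromy data. -/
theorem exists_data_smallP {t : V} (ht : ∀ j ∈ J, P.coroot' j t = 0)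
    (hsep : (FlagP.small b J t).mul.charpoly.Separable) {φ : ℝ}
    (hφ : IsAdmissible (FlagP.small b J t) φ) :
    ∃ M : MonodromyData (FlagP.small b J t) (Fintype.card (FlagP.Rep b J)), M.φ = φ := by
  obtain ⟨D, ⟨m⟩⟩ := exists_model P b
  obtain ⟨n⟩ := num_cardP b hJ m
  have hs := m.inv_s hJ ht
  have h1 : FlagP.small b J t = (Par.smallF (m.par J) (m.s t)).sub (m.fX hJ) := by
    rw [← m.small_bkP hJ, m.bk_s]
  rw [h1] at hsep hφ ⊢
  rw [charpoly_sub] at hsep
  obtain ⟨M, hM⟩ := Par.exists_data_flag n hs (Par.kd hs) hsep (admissible_sub _ hφ)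
  exact ⟨reMD _ M, hM⟩

end basic

variable [Fintype P.weylGroup] [DecidableEq P.weylGroup]
  [Fintype (FlagP.Rep b J)] [DecidableEq (FlagP.Rep b J)]

include hJ in
/-- The numerical form of the conjecture of Dubrovin for flag varieties. -/
theorem final_flagP {t : V} (ht : ∀ j ∈ J, P.coroot' j t = 0)
    {Z : ℂ → Matrix (FlagP.Rep b J) (FlagP.Rep b J) ℂ}
    (hZ : IsStandard (FlagP.small b J t) Z)
    (M : MonodromyData (FlagP.small b J t) (Fintype.card (FlagP.Rep b J))) :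
    ∃ v : Fin (Fintype.card (FlagP.Rep b J)) → FlagP.KClass P J,
      FlagP.IsExceptionalBasis b J v ∧
      (∀ i j, M.S i j = FlagP.euler b J (v i) (v j)) ∧
      (∃ C' : Matrix (FlagP.Rep b J) (FlagP.Rep b J) ℂ,
        C' * (FlagP.small b J t).cup = (FlagP.small b J t).cup * C' ∧ C'.det ≠ 0 ∧
        M.C = C' * (FlagP.small b J t).twist * FlagP.chernMatrix b J v ∧
        ∀ (x y : FlagP.KClass P J) (w : ℂ), flatPairing M w
          ((C' * (FlagP.small b J t).twist).mulVec (FlagP.chern b J x))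
          ((C' * (FlagP.small b J t).twist).mulVec (FlagP.chern b J y)) =
            FlagP.euler b J x y) ∧
      ∀ w, M.Xminus w = (Complex.I / (Real.sqrt (2 * Real.pi) : ℂ)) ^ (FlagP.pos b J).card •
        (Z w * FlagP.gammaOp b J t * (FlagP.small b J t).twist * FlagP.chernMatrix b J v) := by
  obtain ⟨D, ⟨m⟩⟩ := exists_model P b
  obtain ⟨n⟩ := num_cardP b hJ m
  have hs := m.inv_s hJ ht
  obtain ⟨t, rfl⟩ := m.bk_surj t
  rw [m.s_bk] at hs
  have key : ∀ X : Small (FlagP.Rep b J), X = (Par.smallF (m.par J) t).sub (m.fX hJ) →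
      ∀ Z, IsStandard X Z → ∀ M : MonodromyData X (Fintype.card (FlagP.Rep b J)),
      ∃ v : Fin (Fintype.card (FlagP.Rep b J)) → FlagP.KClass P J,
      FlagP.IsExceptionalBasis b J v ∧
      (∀ i j, M.S i j = FlagP.euler b J (v i) (v j)) ∧
      (∃ C' : Matrix (FlagP.Rep b J) (FlagP.Rep b J) ℂ,
        C' * X.cup = X.cup * C' ∧ C'.det ≠ 0 ∧
        M.C = C' * X.twist * FlagP.chernMatrix b J v ∧
        ∀ (x y : FlagP.KClass P J) (w : ℂ), flatPairing M w
          ((C' * X.twist).mulVec (FlagP.chern b J x))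
          ((C' * X.twist).mulVec (FlagP.chern b J y)) = FlagP.euler b J x y) ∧
      ∀ w, M.Xminus w = (Complex.I / (Real.sqrt (2 * Real.pi) : ℂ)) ^ (FlagP.pos b J).card •
        (Z w * FlagP.gammaOp b J (m.bk t) * X.twist * FlagP.chernMatrix b J v) := by
    rintro X rfl Z hZ M
    obtain ⟨M', hS, hX, hcal, hC⟩ := exists_unre (m.fX hJ) M
    obtain ⟨v, hinv, hgen, hind, hSv, hXv, C', hC1, hC2, hC3, hC4⟩ := Par.final_rsP n hs M'
    have hent := S_entries_small (Par.ok_smallF hs) n.e M'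
    have hZeq : ∀ w, Z w = (Par.Zst n t w).submatrix (m.fX hJ) (m.fX hJ) := by
      intro w
      have h2 := standard_unique (Par.ok_smallF hs) (standard_unsub _ hZ)
        (Par.isStandard_Zst n hs)
      rw [← h2]
      ext i j
      simp
    have hch : ∀ j (u : FlagP.Rep b J), FlagP.chern b J ⟨m.back (v j), m.inv_back hJ (hinv j)⟩ u =
        D.chK (v j) (m.f u.1) := fun j u => m.chern_back (v j) u.1
    have hchf : ∀ (x : FlagP.KClass P J) (u : FlagP.Rep b J), D.chK (m.fwd x.1) (m.f u.1) =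
        FlagP.chern b J x u := fun x u => m.chern_fwd x.1 u.1
    have hcM : FlagP.chernMatrix b J (fun j => ⟨m.back (v j), m.inv_back hJ (hinv j)⟩) =
        (Par.cM v).submatrix (m.fX hJ) id := by
      ext u j
      exact hch j u
    have hSe : ∀ i j, M.S i j = FlagP.euler b J ⟨m.back (v i), m.inv_back hJ (hinv i)⟩
        ⟨m.back (v j), m.inv_back hJ (hinv j)⟩ := by
      intro i j
      rw [← hS, hSv]
      exact (m.euler_back (v i) (v j)).symm
    have htw := twist_sub (Par.smallF (m.par J) t) (m.fX hJ)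
    refine ⟨fun j => ⟨m.back (v j), m.inv_back hJ (hinv j)⟩, ⟨?_, ?_, ?_, ?_⟩, hSe, ?_, ?_⟩
    · intro x
      obtain ⟨c, hc⟩ := hgen (m.fwd x.1) (m.inv_fwd hJ x)
      refine ⟨c, ?_⟩
      funext u
      rw [← hchf]
      have h3 := hc (m.f u.1)
      refine h3.trans ?_
      rw [Finset.sum_apply]
      refine Finset.sum_congr rfl fun j _ => ?_
      rw [Pi.smul_apply, hch, zsmul_eq_mul]
      rfl
    · rw [Fintype.linearIndependent_iff]
      intro g hg i
      have h2 := hind g (by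
        funext u
        have h3 := congrFun hg ((m.fX hJ).symm u)
        rw [Finset.sum_apply] at h3
        show ∑ j, Par.cM v u j * g j = 0
        rw [Pi.zero_apply] at h3
        rw [← h3]
        refine Finset.sum_congr rfl fun j _ => ?_
        rw [Pi.smul_apply, hch, smul_eq_mul, mul_comm, ← m.fX_val hJ, Equiv.apply_symm_apply]
        rfl)
      rw [h2]
      rfl
    · intro i
      rw [← hSe, ← hS]
      exact hent.1 i
    · intro i j hij
      rw [← hSe, ← hS]
      exact hent.2 i j hij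
    · refine ⟨C'.submatrix (m.fX hJ) (m.fX hJ), ?_, ?_, ?_, ?_⟩
      · show C'.submatrix (m.fX hJ) (m.fX hJ) *
          (Par.smallF (m.par J) t).cup.submatrix (m.fX hJ) (m.fX hJ) =
          (Par.smallF (m.par J) t).cup.submatrix (m.fX hJ) (m.fX hJ) *
            C'.submatrix (m.fX hJ) (m.fX hJ)
        rw [Matrix.submatrix_mul_equiv, Matrix.submatrix_mul_equiv, hC1]
      · rw [Matrix.det_submatrix_equiv_self]
        exact hC2
      · rw [hC, hC3, hcM, htw, Matrix.submatrix_mul_equiv, Matrix.submatrix_mul_equiv]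
      · intro x y w
        rw [htw, Matrix.submatrix_mul_equiv]
        have h2 : ∀ x : FlagP.KClass P J, ((C' * (Par.smallF (m.par J) t).twist).submatrix
            (m.fX hJ) (m.fX hJ)).mulVec (FlagP.chern b J x) =
            fun i => ((C' * (Par.smallF (m.par J) t).twist).mulVec
              (fun u => (m.par J).D.chK (m.fwd x.1) u.1)) (m.fX hJ i) := by
          intro x
          funext i
          unfold Matrix.mulVec dotProduct
          rw [← Equiv.sum_comp (m.fX hJ)]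
          refine Finset.sum_congr rfl fun j _ => ?_
          show (C' * (Par.smallF (m.par J) t).twist) (m.fX hJ i) (m.fX hJ j) *
            FlagP.chern b J x j =
            (C' * (Par.smallF (m.par J) t).twist) (m.fX hJ i) (m.fX hJ j) * _
          congr 1
          exact (hchf x j).symm
        rw [h2, h2, flatPairing_sub _ hcal, hC4 _ _ _ (m.inv_fwd hJ x) (m.inv_fwd hJ y)]
        exact m.euler_fwd x.1 y.1
    · intro w
      rw [hX, hXv, hcM, htw, m.gammaP_bk hJ, hZeq, Matrix.submatrix_mul_equiv,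
        Matrix.submatrix_mul_equiv, Matrix.submatrix_mul_equiv, m.card_pos' hJ]
      simp only [Matrix.mul_assoc]
      rfl
  exact key _ (m.small_bkP hJ t) Z hZ M

end final

end Pool.Agent.FLG
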