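import Pool.Agent.FLG.FlagP
import Pool.Agent.FLG.ZP.Sep
import Pool.Agent.FLG.Z.Dense

/-!
# FLG-ZP-Dense: the points with pairwise distinct canonical coordinates
-/

set_option autoImplicit false
set_option linter.unusedSectionVars false

open scoped BigOperators Topology
open Filter

namespace Pool.Agent.FLG

variable {ι V V' : Type} [Fintype ι] [AddCommGroup V] [Module ℂ V] [AddCommGroup V'] [Module ℂ V']
  {P : RootPairing ι ℂ V V'} (b : P.Base)

/-- The points `t ∈ H^2` with pairwise distinct canonical coordinates are dense as soon as there is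
one. -/
theorem dense_flagP (J : Set ι) [Fintype (FlagP.Rep b J)] [DecidableEq (FlagP.Rep b J)]
    {t₀ t₁ : V} (h₀ : ∀ j ∈ J, P.coroot' j t₀ = 0) (h₁ : ∀ j ∈ J, P.coroot' j t₁ = 0)
    (hs : (FlagP.small b J t₁).mul.charpoly.Separable) {δ : ℝ} (hδ : 0 < δ) :
    ∃ t : V, (∀ j ∈ J, P.coroot' j t = 0) ∧ (∀ i, ‖P.coroot' i (t - t₀)‖ < δ) ∧
      (FlagP.small b J t).mul.charpoly.Separable := by
  classical
  have hd : ∀ u w, Differentiable ℂ fun z : ℂ =>
      (FlagP.small b J (t₀ + z • (t₁ - t₀))).mul u w := by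
    intro u w
    show Differentiable ℂ fun z : ℂ => FlagP.mul b J (t₀ + z • (t₁ - t₀)) (FlagP.c₁ b J) u w
    unfold FlagP.mul
    simp only [Matrix.add_apply, Matrix.of_apply]
    refine (differentiable_const _).add ?_
    refine Differentiable.fun_sum fun i _ => ?_
    split_ifs
    · refine (differentiable_const _).mul (Differentiable.cexp ?_)
      simp only [map_add, map_smul, smul_eq_mul]
      fun_prop
    · exact differentiable_const _
  have h1 := sep_near hd (z₁ := 1) (by
    rw [one_smul, add_sub_cancel]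
    exact hs)
  have h2 : ∀ᶠ z in 𝓝[≠] (0 : ℂ), ∀ i, ‖z * P.coroot' i (t₁ - t₀)‖ < δ := by
    rw [eventually_all]
    intro i
    have h3 : Tendsto (fun z : ℂ => ‖z * P.coroot' i (t₁ - t₀)‖) (𝓝 0) (𝓝 0) := by
      have h4 : Continuous fun z : ℂ => ‖z * P.coroot' i (t₁ - t₀)‖ := by fun_prop
      have h5 := h4.tendsto 0
      rwa [zero_mul, norm_zero] at h5
    exact (h3.eventually (gt_mem_nhds hδ)).filter_mono nhdsWithin_le_nhds
  obtain ⟨z, hz1, hz2⟩ := (h1.and h2).exists
  refine ⟨t₀ + z • (t₁ - t₀), fun j hj => ?_, fun i => ?_, hz1⟩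
  · rw [map_add, map_smul, map_sub, h₀ j hj, h₁ j hj]
    simp
  · rw [add_sub_cancel_left, map_smul, smul_eq_mul]
    exact hz2 i

section empty

variable [P.IsCrystallographic] [P.IsRootSystem] [P.IsReduced] [Fintype P.weylGroup]
  [DecidableEq P.weylGroup]

private theorem levi_empty : FlagP.levi P (∅ : Set ι) = ⊥ := by
  unfold FlagP.levi
  rw [Subgroup.closure_eq_bot_iff]
  rintro w ⟨j, hj, -⟩
  exact hj.elim

private theorem pos_empty : FlagP.pos b ∅ = Flag.pos b := by
  classical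
  unfold FlagP.pos Flag.pos
  ext i
  rw [Finset.mem_filter, Finset.mem_filter, Set.image_empty, Submodule.span_empty,
    Submodule.mem_bot]
  refine and_congr_right fun _ => ⟨fun h => h.1, fun h => ⟨h, P.ne_zero i⟩⟩

private noncomputable def e0 : FlagP.Rep b ∅ ≃ P.weylGroup :=
  Equiv.subtypeUnivEquiv fun _ _ hj => hj.elim

private theorem c1_empty : FlagP.c₁ b ∅ = Flag.c₁ b := by
  unfold FlagP.c₁ Flag.c₁
  rw [pos_empty]

private theorem coset_empty (u w : FlagP.Rep b ∅) (i : ι) :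
    u.1⁻¹ * (w.1 * RootPairing.weylGroup.ofIdx P i) ∈ FlagP.levi P ∅ ↔
      e0 b u = e0 b w * RootPairing.weylGroup.ofIdx P i := by
  rw [levi_empty, Subgroup.mem_bot, inv_mul_eq_one]
  rfl

private theorem ite_key (p q : Prop) (i₁ : Decidable p) (i₂ : Decidable q) (x : ℂ) (h : p ↔ q) :
    @ite ℂ p i₁ x 0 = @ite ℂ q i₂ x 0 := if_congr h rfl rfl

private theorem mul_empty (t h : V) :
    FlagP.mul b ∅ t h = (Flag.mul b t h).submatrix (e0 b) (e0 b) := by
  ext u w
  unfold FlagP.mul Flag.mul FlagP.cup Flag.cup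
  rw [c1_empty, pos_empty]
  refine congrArg₂ (· + ·) (Finset.sum_congr rfl fun i _ => ite_key _ _ _ _ _ ?_)
    (Finset.sum_congr rfl fun i _ => ite_key _ _ _ _ _ ?_)
  · rw [coset_empty]
    exact Iff.rfl
  · rw [coset_empty]
    exact Iff.rfl

/-- For `J = ∅` there are points with pairwise distinct canonical coordinates. -/
theorem exists_sep_empty [Fintype (FlagP.Rep b ∅)] [DecidableEq (FlagP.Rep b ∅)] :
    ∃ t : V, (FlagP.small b ∅ t).mul.charpoly.Separable := by
  obtain ⟨t, -, ht⟩ := dense_flag b 0 one_pos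
  refine ⟨t, ?_⟩
  have h1 : (FlagP.small b ∅ t).mul =
      Matrix.reindex (e0 b).symm (e0 b).symm (Flag.small b t).mul := by
    show FlagP.mul b ∅ t (FlagP.c₁ b ∅) = (Flag.mul b t (Flag.c₁ b)).submatrix (e0 b) (e0 b)
    rw [c1_empty, mul_empty]
  rw [h1, Matrix.charpoly_reindex]
  exact ht

end empty

end Pool.Agent.FLG
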