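import Pool.Agent.FLG.ZP.Fin
import Pool.Agent.FLG.PG.Gen

/-!
# FLG-ZP-Gen: generation by divisors and points with pairwise distinct canonical coordinates
-/

set_option autoImplicit false
set_option linter.unusedSectionVars false

open scoped BigOperators Topology
open Filter
open Pool.Agent.DST.TE

namespace Pool.Agent.FLG

variable {ι V V' : Type} [Fintype ι] [AddCommGroup V] [Module ℂ V] [AddCommGroup V'] [Module ℂ V']
  {P : RootPairing ι ℂ V V'}

variable [P.IsCrystallographic] {b : P.Base} {r : ℕ} {D : RS r}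

namespace IsModel

variable (m : IsModel P b D) {J : Set ι} (hJ : J ⊆ b.support)

include hJ in
theorem span_of_gen [P.IsRootSystem] [DecidableEq P.weylGroup] [Fintype (FlagP.Rep b J)]
    {F : V → Matrix (FlagP.Rep b J) (FlagP.Rep b J) ℂ}
    {F' : (Fin r → ℂ) → Matrix (m.par J).X (m.par J).X ℂ}
    (hF : ∀ h, F (m.bk h) = (F' h).submatrix (m.fX hJ) (m.fX hJ))
    (h : FlagP.Generates b J F) : (m.par J).Span F' := by
  intro S h1 hS
  have h2 := h (S.comap (LinearMap.funLeft ℂ ℂ (m.fX hJ).symm)) ?_ ?_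
  · rw [eq_top_iff]
    intro x _
    have h3 : (fun u => x (m.fX hJ u)) ∈ S.comap (LinearMap.funLeft ℂ ℂ (m.fX hJ).symm) := by
      rw [h2]
      exact Submodule.mem_top
    have h4 : LinearMap.funLeft ℂ ℂ (m.fX hJ).symm (fun u => x (m.fX hJ u)) ∈ S := h3
    have h5 : LinearMap.funLeft ℂ ℂ (m.fX hJ).symm (fun u => x (m.fX hJ u)) = x := by
      funext w
      rw [LinearMap.funLeft_apply]
      show x (m.fX hJ ((m.fX hJ).symm w)) = x w
      rw [Equiv.apply_symm_apply]
    rwa [h5] at h4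
  · show LinearMap.funLeft ℂ ℂ (m.fX hJ).symm _ ∈ S
    have h3 : LinearMap.funLeft ℂ ℂ (m.fX hJ).symm
        (fun u : FlagP.Rep b J => if u.1 = 1 then (1 : ℂ) else 0) =
        Pi.single (m.par J).one 1 := by
      funext w
      rw [LinearMap.funLeft_apply, Pi.single_apply]
      refine if_congr ?_ rfl rfl
      have h4 : (m.fX hJ ((m.fX hJ).symm w)).1 = m.f ((m.fX hJ).symm w).1 := rfl
      rw [Equiv.apply_symm_apply] at h4
      constructor
      · intro h5
        apply Subtype.ext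
        rw [h4, h5, map_one]
        rfl
      · intro h5
        apply m.f.injective
        rw [← h4, h5, map_one]
        rfl
    rw [h3]
    exact h1
  · intro g hg x hx
    have hx' : LinearMap.funLeft ℂ ℂ (m.fX hJ).symm x ∈ S := hx
    show LinearMap.funLeft ℂ ℂ (m.fX hJ).symm ((F g).mulVec x) ∈ S
    have h3 := hS (m.s g) (m.inv_s hJ hg) _ hx'
    have h4 : LinearMap.funLeft ℂ ℂ (m.fX hJ).symm ((F g).mulVec x) =
        (F' (m.s g)).mulVec (LinearMap.funLeft ℂ ℂ (m.fX hJ).symm x) := by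
      funext w
      have h5 := hF (m.s g)
      rw [m.bk_s] at h5
      rw [LinearMap.funLeft_apply, h5]
      show ∑ u, (F' (m.s g)).submatrix (m.fX hJ) (m.fX hJ) ((m.fX hJ).symm w) u * x u =
        ∑ v, F' (m.s g) w v * x ((m.fX hJ).symm v)
      rw [← Equiv.sum_comp (m.fX hJ)]
      refine Finset.sum_congr rfl fun u _ => ?_
      rw [Matrix.submatrix_apply, Equiv.apply_symm_apply, Equiv.symm_apply_apply]
    rw [h4]
    exact h3

end IsModel

private theorem charpoly_submatrix' {κ κ' : Type} [Fintype κ] [DecidableEq κ] [Fintype κ']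
    [DecidableEq κ'] (e : κ ≃ κ') (M : Matrix κ' κ' ℂ) :
    (M.submatrix e e).charpoly = M.charpoly :=
  Matrix.charpoly_reindex e.symm M

/-- If `H^2(X)` generates the cohomology of `X = G/Q`, or its quantum cohomology at one point of
`H^2(X)`, then there are points of `H^2(X)` with pairwise distinct canonical coordinates. -/
theorem exists_sep_gen [P.IsRootSystem] [P.IsReduced] [Fintype P.weylGroup]
    [DecidableEq P.weylGroup] (b : P.Base) {J : Set ι} (hJ : J ⊆ b.support)
    [Fintype (FlagP.Rep b J)] [DecidableEq (FlagP.Rep b J)]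
    (h : FlagP.Generates b J (FlagP.cup b J) ∨ ∃ t₀ : V, (∀ j ∈ J, P.coroot' j t₀ = 0) ∧
      FlagP.Generates b J (FlagP.mul b J t₀)) :
    ∃ t : V, (∀ j ∈ J, P.coroot' j t = 0) ∧ (FlagP.small b J t).mul.charpoly.Separable := by
  obtain ⟨D, ⟨m⟩⟩ := exists_model P b
  have key : ∃ t : Fin b.support.card → ℂ, (m.par J).Inv t ∧
      ((m.par J).E ((m.par J).D.ch (m.par J).ctr) t).charpoly.Separable := by
    have h0 : (m.par J).Inv 0 := by
      intro j _
      unfold RS.ch
      simp
    rcases h with h | ⟨t₀, ht₀, h⟩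
    · obtain ⟨t, -, ht, hs⟩ := Par.dense_of_span0 (P := m.par J)
        (m.span_of_gen hJ (fun g => m.cupP_bk hJ g) h) h0 Filter.univ_mem
      exact ⟨t, ht, hs⟩
    · have h1 : (m.par J).Span fun g => (m.par J).E ((m.par J).D.ch g) (m.s t₀) := by
        refine m.span_of_gen hJ (F := FlagP.mul b J t₀) (fun g => ?_) h
        rw [← m.mulP_bk hJ (m.s t₀) g, m.bk_s]
      obtain ⟨t, -, ht, hs⟩ := Par.dense_of_span (P := m.par J) (m.inv_s hJ ht₀) h1 h0
        Filter.univ_mem
      exact ⟨t, ht, hs⟩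
  obtain ⟨t, ht, hs⟩ := key
  refine ⟨m.bk t, fun j hj => ?_, ?_⟩
  · obtain ⟨k, hk, hk'⟩ := m.exists_mem hJ hj
    have h1 := ht k hk'
    have h2 : (m.par J).D.ch t (m.v (m.e k)) = P.coroot' (m.e k) (m.bk t) := m.ch_bk t _
    rw [m.v_e, h1, hk] at h2
    exact h2.symm
  · show (FlagP.mul b J (m.bk t) (FlagP.c₁ b J)).charpoly.Separable
    rw [m.c1_eq' hJ, m.mulP_bk hJ]
    rw [charpoly_submatrix']
    exact hs

end Pool.Agent.FLG
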